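import Mathlib

set_option autoImplicit false

namespace Pool.Agent.Results.MP_b34cfe_co.Cap

def S : Multiset (Fin 3 → ZMod 3) := {![0, 0, 0], ![0, 0, 0], ![0, 1, 1], ![0, 1, 1], ![0, 2, 1], ![0, 2, 1], ![1, 0, 1], ![1, 0, 1], ![1, 1, 2], ![1, 1, 2], ![1, 2, 2], ![1, 2, 2], ![2, 0, 1], ![2, 0, 1], ![2, 1, 2], ![2, 1, 2], ![2, 2, 2], ![2, 2, 2]}

/-- The conjectured bound fails for `n = 3`, `t = 1`, `d = 3`. -/
theorem result : ∃ (n t d l : ℕ), 0 < n ∧ 0 < t ∧ 0 < d ∧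
    IsLeast {k : ℕ | 2 ^ d ≤ k ∧ ¬ k ∣ n} l ∧
    ∃ A : Multiset (Fin d → ZMod n), A.sum = 0 ∧
      ((t : ℤ) + 2 ^ d - 1) * n - l + 1 ≤ (Multiset.card A : ℤ) ∧
      ∀ T ≤ A, Multiset.card T = n * t → T.sum ≠ 0 := by
  refine ⟨3, 1, 3, 8, by norm_num, by norm_num, by norm_num, ⟨by decide, fun k hk => hk.1⟩,
    S, by decide +kernel, by decide +kernel, ?_⟩
  intro T hT hc
  have h : ∀ U ∈ Multiset.powersetCard 3 S, U.sum ≠ 0 := by decide +kernel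
  exact h T (Multiset.mem_powersetCard.2 ⟨hT, hc⟩)

end Pool.Agent.Results.MP_b34cfe_co.Cap
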